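import Pool.Agent.Helper97_BSN.Common

/-!
# Module THR (squad BSN)
-/

namespace Pool.Agent.BSN.H97

open Filter Cardinal Pool.Agent.BSig Pool.Agent.BSN

variable {τ : Tower}

theorem thr (hSG : SigmaLemma τ) (hDJ : DerJoin τ) (hCode : CodeStmt τ) : ThrStmt τ := by
  intro φ C B hvia hB hC l
  by_contra hcon
  push Not at hcon
  choose F t hF ht hTr hDer hFact using hcon
  have h1 : ∀ v : ℕ, ∃ K i z : (MMt τ), K ≤ (aat τ) l ∧ t v = 2 * K + i ∧ (i = 0 ∨ i = 1) ∧ Mem z K ∧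
      z ∉ sgn C i := by
    intro v
    obtain ⟨K, hK, i, -, -, -, -, -, -, -, e, hi, -⟩ := hDer v
    by_contra hc
    push Not at hc
    exact hFact v ⟨K, i, e, hi, fun z hz => by
      by_contra hz2
      exact hz2 (hc K i z hK e hi hz)⟩
  choose K i z hK htK hi hzK hzC using h1
  have hz : ∀ v, z v ≤ (aat τ) l := fun v => (mem_lt (hzK v)).le.trans (hK v)
  obtain ⟨EF, hEF⟩ := hCode.2.2 F ((aat τ) l) hF
  obtain ⟨Et, hEt⟩ := hCode.2.2 t ((aat τ) l) ht
  obtain ⟨Ez, hEz⟩ := hCode.2.2 z ((aat τ) l) hz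
  -- the literals of the `F v`
  obtain ⟨SB, hSB⟩ := exists_rel ((aat τ) 0) ((aat τ) l) (R := fun y x => ∃ F, F ≤ (aat τ) l ∧
    (Mem (pr y F) EF ∧ Mem x F)) (by
      refine IsDelta0.ex (IsTerm.param _) ?_
      exact (IsDelta0.mem (IsTerm.pr (IsTerm.var 1) (IsTerm.var 0)) (IsTerm.param _)).and
        (IsDelta0.mem (IsTerm.var 2) (IsTerm.var 0)))
  -- the facts about `C`
  obtain ⟨SC, hSC⟩ := exists_rel ((aat τ) 0) (2 * (aat τ) l + 1) (R := fun y x => ∃ z, z ≤ (aat τ) l ∧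
    ∃ t, t ≤ (aat τ) l ∧ ∃ K, K ≤ (aat τ) l ∧ (Mem (pr y z) Ez ∧ (Mem (pr y t) Et ∧
      ((t = 2 * K ∧ x = 2 * z + 1) ∨ (t = 2 * K + 1 ∧ x = 2 * z))))) (by
      refine IsDelta0.ex (IsTerm.param _) ?_
      refine IsDelta0.ex (IsTerm.param _) ?_
      refine IsDelta0.ex (IsTerm.param _) ?_
      -- 0 = K, 1 = t, 2 = z, 3 = y, 4 = x
      refine (IsDelta0.mem (IsTerm.pr (IsTerm.var 3) (IsTerm.var 2)) (IsTerm.param _)).and ?_
      refine (IsDelta0.mem (IsTerm.pr (IsTerm.var 3) (IsTerm.var 1)) (IsTerm.param _)).and ?_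
      refine IsDelta0.or ?_ ?_
      · exact (IsDelta0.eq (IsTerm.var 1) (IsTerm.var 0).twomul).and
          (IsDelta0.eq (IsTerm.var 4) ((IsTerm.var 2).twomul.addc 1))
      · exact (IsDelta0.eq (IsTerm.var 1) ((IsTerm.var 0).twomul.addc 1)).and
          (IsDelta0.eq (IsTerm.var 4) (IsTerm.var 2).twomul))
  have hstd : ∀ n : ℕ, ((n : ℕ) : (MMt τ)) ≤ (aat τ) 0 := fun n => (infl_aa 0 n).le
  obtain ⟨e1, he1, hB1⟩ := hSG B hB SB (by
    intro n x
    constructor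
    · intro h
      obtain ⟨-, -, F', -, h2, h3⟩ := (hSB _ _).1 h
      rw [(hEF n F').1 h2] at h3
      exact (hTr n x).1 h3
    · intro h
      obtain ⟨-, -, F', -, h2, h3⟩ := (hSB _ _).1 h
      rw [(hEF n F').1 h2] at h3
      exact (hTr n x).2 h3)
  obtain ⟨e2, he2, hC2⟩ := hSG C hC SC (by
    intro n x
    constructor
    · intro h
      obtain ⟨-, -, z', -, t', -, K', -, h2, h3, h4⟩ := (hSC _ _).1 h
      rw [hEz] at h2
      rw [hEt] at h3
      subst h2 h3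
      rcases h4 with ⟨h4, h5⟩ | ⟨h4, h5⟩
      · have h6 := H92.odd_inj h5
        rcases hi n with h7 | h7
        · by_contra hx
          rw [h6] at hx
          exact hzC n (Or.inr ⟨h7, hx⟩)
        · rw [htK n, h7] at h4
          exact absurd h4.symm H92.par
      · exact absurd h5.symm H92.par
    · intro h
      obtain ⟨-, -, z', -, t', -, K', -, h2, h3, h4⟩ := (hSC _ _).1 h
      rw [hEz] at h2
      rw [hEt] at h3
      subst h2 h3
      rcases h4 with ⟨h4, h5⟩ | ⟨h4, h5⟩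
      · exact absurd h5 H92.par
      · have h6 := H92.two_inj h5
        rcases hi n with h7 | h7
        · rw [htK n, h7, add_zero] at h4
          exact absurd h4 H92.par
        · intro hx
          rw [h6] at hx
          exact hzC n (Or.inl ⟨h7, hx⟩))
  -- the internal condition
  have hP : Int1 (fun y : (MMt τ) => ∃ F, F ≤ (aat τ) l ∧ ∃ t, t ≤ (aat τ) l ∧ ∃ z, z ≤ (aat τ) l ∧ ∃ K, K ≤ (aat τ) l ∧
      ∃ i, i ≤ 1 ∧ (Mem (pr y F) EF ∧ (Mem (pr y t) Et ∧ (Mem (pr y z) Ez ∧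
        (Der φ ((aat τ) l) l y F t ∧ (t = 2 * K + i ∧ ((i = 0 ∨ i = 1) ∧ Mem z K))))))) := by
    refine Int1.of_delta0 ?_
    refine IsDelta0.ex (IsTerm.param _) ?_
    refine IsDelta0.ex (IsTerm.param _) ?_
    refine IsDelta0.ex (IsTerm.param _) ?_
    refine IsDelta0.ex (IsTerm.param _) ?_
    refine IsDelta0.ex (IsTerm.param _) ?_
    -- 0 = i, 1 = K, 2 = z, 3 = t, 4 = F, 5 = y
    refine (IsDelta0.mem (IsTerm.pr (IsTerm.var 5) (IsTerm.var 4)) (IsTerm.param _)).and ?_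
    refine (IsDelta0.mem (IsTerm.pr (IsTerm.var 5) (IsTerm.var 3)) (IsTerm.param _)).and ?_
    refine (IsDelta0.mem (IsTerm.pr (IsTerm.var 5) (IsTerm.var 2)) (IsTerm.param _)).and ?_
    refine (hvia.1.dern (IsTerm.param _) (IsTerm.param _) (IsTerm.var 5) (IsTerm.var 4)
      (IsTerm.var 3)).and ?_
    refine (IsDelta0.eq (IsTerm.var 3) ((IsTerm.var 1).twomul.add (IsTerm.var 0))).and ?_
    refine ((IsDelta0.eq (IsTerm.var 0) (IsTerm.param 0)).or
      (IsDelta0.eq (IsTerm.var 0) (IsTerm.param 1))).and ?_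
    exact IsDelta0.mem (IsTerm.var 2) (IsTerm.var 1)
  obtain ⟨e3, he3, h3⟩ := hP.overspill (by
    intro n
    refine ⟨F n, hF n, t n, ht n, z n, hz n, K n, hK n, i n, ?_, (hEF n _).2 rfl, (hEt n _).2 rfl,
      (hEz n _).2 rfl, hDer n, htK n, hi n, hzK n⟩
    rcases hi n with h | h
    · rw [h]; exact PAExp.zero_le' _
    · rw [h])
  obtain ⟨y, hy, hy1, hy2, hy3, hy4⟩ : ∃ y : (MMt τ), Infl y ∧ y ≤ e1 ∧ y ≤ e2 ∧ y ≤ e3 ∧ y ≤ (aat τ) 0 :=
    ⟨min (min e1 e2) (min e3 ((aat τ) 0)), infl_min (infl_min he1 he2) (infl_min he3 (infl_aa 0)),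
      (min_le_left _ _).trans (min_le_left _ _), (min_le_left _ _).trans (min_le_right _ _),
      (min_le_right _ _).trans (min_le_left _ _), (min_le_right _ _).trans (min_le_right _ _)⟩
  obtain ⟨F', hF', t', ht', z', hz', K', hK', i', -, g1, g2, g3, g4, g5, g6, g7⟩ := h3 y hy3
  have hTr' : Tr B F' := by
    intro x
    constructor
    · intro hx
      exact (hB1 y hy1 x).1 ((hSB _ _).2 ⟨hy4, (mem_lt hx).le.trans hF', F', hF', g1, hx⟩)
    · intro hx
      exact (hB1 y hy1 x).2 ((hSB _ _).2 ⟨hy4, (mem_lt hx).le.trans hF', F', hF', g1, hx⟩)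
  obtain ⟨K'', i'', k1, k2, k3⟩ := (hDJ.2 φ C B hvia t').2 ⟨l, y, F', hy, hTr', hF', g4⟩
  have hb : (2 * z' + 1 : (MMt τ)) ≤ 2 * (aat τ) l + 1 :=
    PAExp.add_le_add' _ _ 1 (mul_le_mul2 le_rfl hz')
  rcases g6 with h6 | h6
  · subst h6
    rw [add_zero] at g5
    rcases k2 with h7 | h7
    · subst h7
      rw [add_zero] at k1
      have hKK : K' = K'' := H92.two_inj (g5.symm.trans k1)
      rw [← hKK] at k3
      have hzC' : z' ∈ C := (hC2 y hy2 z').1 ((hSC _ _).2 ⟨hy4, hb, z', hz', t', ht', K', hK', g3,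
        g2, Or.inl ⟨g5, rfl⟩⟩)
      rcases k3 g7 with ⟨h8, _⟩ | ⟨_, h8⟩
      · exact absurd h8 PAExp.zero_ne_one'
      · exact h8 hzC'
    · subst h7
      exact H92.par (g5.symm.trans k1)
  · subst h6
    rcases k2 with h7 | h7
    · subst h7
      rw [add_zero] at k1
      exact H92.par (k1.symm.trans g5)
    · subst h7
      have hKK : K' = K'' := H92.odd_inj (g5.symm.trans k1)
      rw [← hKK] at k3
      have hzC' : z' ∉ C := (hC2 y hy2 z').2 ((hSC _ _).2 ⟨hy4, (le_add_right' _ 1).trans hb, z',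
        hz', t', ht', K', hK', g3, g2, Or.inr ⟨g5, rfl⟩⟩)
      rcases k3 g7 with ⟨_, h8⟩ | ⟨h8, _⟩
      · exact hzC' h8
      · exact absurd h8.symm PAExp.zero_ne_one'

end Pool.Agent.BSN.H97
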