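import Pool.Agent.Helper97_BSN.Common

/-!
# Module UNB (squad BSN)
-/

namespace Pool.Agent.BSN.H97

open Filter Cardinal Pool.Agent.BSig Pool.Agent.BSN

variable {τ : Tower}

theorem unb (hSG : SigmaLemma τ) (hCode : CodeStmt τ) : UnbStmt τ := by
  intro X Y hX hY θ hθ hsound m
  by_contra hcon
  push Not at hcon
  choose w p q hw hp hq hθk hpk hqk using hcon
  obtain ⟨Ew, hEw⟩ := hCode.2.2 w ((aat τ) m) hw
  obtain ⟨Ep, hEp⟩ := hCode.2.2 p ((aat τ) m) hp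
  obtain ⟨Eq, hEq⟩ := hCode.2.2 q ((aat τ) m) hq
  have hstd : ∀ n : ℕ, ((n : ℕ) : (MMt τ)) ≤ (aat τ) 0 := fun n => (infl_aa 0 n).le
  have key : ∀ c : (MMt τ), ∃ S : (MMt τ), ∀ y z : (MMt τ),
      (Mem (pr y (2 * z + 1)) S ↔ y ≤ (aat τ) 0 ∧ ∃ p, p ≤ (aat τ) m ∧ (Mem (pr y p) Ep ∧
        Mem (2 * z + c) p) ∧ z ≤ (aat τ) m) ∧
      (Mem (pr y (2 * z)) S ↔ y ≤ (aat τ) 0 ∧ ∃ q, q ≤ (aat τ) m ∧ (Mem (pr y q) Eq ∧
        Mem (2 * z + c) q) ∧ z ≤ (aat τ) m) := by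
    intro c
    obtain ⟨S, hS⟩ := exists_rel ((aat τ) 0) (2 * (aat τ) m + 1) (R := fun y x => ∃ z, z ≤ (aat τ) m ∧
      ((∃ p, p ≤ (aat τ) m ∧ (Mem (pr y p) Ep ∧ (Mem (2 * z + c) p ∧ x = 2 * z + 1))) ∨
      (∃ q, q ≤ (aat τ) m ∧ (Mem (pr y q) Eq ∧ (Mem (2 * z + c) q ∧ x = 2 * z))))) (by
        refine IsDelta0.ex (IsTerm.param _) ?_
        refine IsDelta0.or ?_ ?_
        · refine IsDelta0.ex (IsTerm.param _) ?_
          -- 0 = p, 1 = z, 2 = y, 3 = x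
          refine (IsDelta0.mem (IsTerm.pr (IsTerm.var 2) (IsTerm.var 0)) (IsTerm.param _)).and ?_
          refine (IsDelta0.mem ((IsTerm.var 1).twomul.addc c) (IsTerm.var 0)).and ?_
          exact IsDelta0.eq (IsTerm.var 3) ((IsTerm.var 1).twomul.addc 1)
        · refine IsDelta0.ex (IsTerm.param _) ?_
          refine (IsDelta0.mem (IsTerm.pr (IsTerm.var 2) (IsTerm.var 0)) (IsTerm.param _)).and ?_
          refine (IsDelta0.mem ((IsTerm.var 1).twomul.addc c) (IsTerm.var 0)).and ?_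
          exact IsDelta0.eq (IsTerm.var 3) (IsTerm.var 1).twomul)
    refine ⟨S, fun y z => ⟨?_, ?_⟩⟩
    · rw [hS]
      constructor
      · rintro ⟨h1, -, z', hz', ⟨p', h2, h3, h4, h5⟩ | ⟨q', h2, h3, h4, h5⟩⟩
        · rw [H92.odd_inj h5]
          exact ⟨h1, p', h2, ⟨h3, h4⟩, hz'⟩
        · exact absurd h5.symm H92.par
      · rintro ⟨h1, p', h2, ⟨h3, h4⟩, h5⟩
        exact ⟨h1, PAExp.add_le_add' _ _ 1 (mul_le_mul2 le_rfl h5), z, h5,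
          Or.inl ⟨p', h2, h3, h4, rfl⟩⟩
    · rw [hS]
      constructor
      · rintro ⟨h1, -, z', hz', ⟨p', h2, h3, h4, h5⟩ | ⟨q', h2, h3, h4, h5⟩⟩
        · exact absurd h5 H92.par
        · rw [H92.two_inj h5]
          exact ⟨h1, q', h2, ⟨h3, h4⟩, hz'⟩
      · rintro ⟨h1, q', h2, ⟨h3, h4⟩, h5⟩
        exact ⟨h1, (mul_le_mul2 le_rfl h5).trans (le_add_right' _ _), z, h5,
          Or.inr ⟨q', h2, h3, h4, rfl⟩⟩
  obtain ⟨SX, hSX⟩ := key 0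
  obtain ⟨SY, hSY⟩ := key 1
  obtain ⟨e1, he1, h1⟩ := hSG X hX SX (by
    intro n z
    constructor
    · intro h
      obtain ⟨-, p', -, ⟨h2, h3⟩, -⟩ := (hSX _ _).1.1 h
      rw [(hEp n p').1 h2, add_zero] at h3
      exact H92.mem_jn_even.1 (hpk n h3)
    · intro h
      obtain ⟨-, q', -, ⟨h2, h3⟩, -⟩ := (hSX _ _).2.1 h
      rw [(hEq n q').1 h2, add_zero] at h3
      exact fun h4 => hqk n h3 (H92.mem_jn_even.2 h4))
  obtain ⟨e2, he2, h2⟩ := hSG Y hY SY (by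
    intro n z
    constructor
    · intro h
      obtain ⟨-, p', -, ⟨h2, h3⟩, -⟩ := (hSY _ _).1.1 h
      rw [(hEp n p').1 h2] at h3
      exact H92.mem_jn_odd.1 (hpk n h3)
    · intro h
      obtain ⟨-, q', -, ⟨h2, h3⟩, -⟩ := (hSY _ _).2.1 h
      rw [(hEq n q').1 h2] at h3
      exact fun h4 => hqk n h3 (H92.mem_jn_odd.2 h4))
  have hP : Int1 (fun y : (MMt τ) => ∃ w, w ≤ (aat τ) m ∧ ∃ p, p ≤ (aat τ) m ∧ ∃ q, q ≤ (aat τ) m ∧
      (Mem (pr y w) Ew ∧ (Mem (pr y p) Ep ∧ (Mem (pr y q) Eq ∧ θ ![w, y, pr p q])))) := by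
    refine Int1.of_delta0 ?_
    refine IsDelta0.ex (IsTerm.param _) ?_
    refine IsDelta0.ex (IsTerm.param _) ?_
    refine IsDelta0.ex (IsTerm.param _) ?_
    -- 0 = q, 1 = p, 2 = w, 3 = y
    refine (IsDelta0.mem (IsTerm.pr (IsTerm.var 3) (IsTerm.var 2)) (IsTerm.param _)).and ?_
    refine (IsDelta0.mem (IsTerm.pr (IsTerm.var 3) (IsTerm.var 1)) (IsTerm.param _)).and ?_
    refine (IsDelta0.mem (IsTerm.pr (IsTerm.var 3) (IsTerm.var 0)) (IsTerm.param _)).and ?_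
    refine (hθ.subst (F := ![fun v => v 2, fun v => v 3, fun v => pr (v 1) (v 0)]) ?_).congr
      fun v => ?_
    · intro i; fin_cases i
      · exact IsTerm.var 2
      · exact IsTerm.var 3
      · exact IsTerm.pr (IsTerm.var 1) (IsTerm.var 0)
    · refine iff_of_eq (congrArg θ ?_)
      funext i; fin_cases i <;> rfl
  obtain ⟨e3, he3, h3⟩ := hP.overspill (by
    intro n
    exact ⟨w n, hw n, p n, hp n, q n, hq n, (hEw n _).2 rfl, (hEp n _).2 rfl, (hEq n _).2 rfl,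
      hθk n⟩)
  obtain ⟨y, hy, hy1, hy2, hy3, hy4⟩ : ∃ y : (MMt τ), Infl y ∧ y ≤ e1 ∧ y ≤ e2 ∧ y ≤ e3 ∧ y ≤ (aat τ) 0 :=
    ⟨min (min e1 e2) (min e3 ((aat τ) 0)), infl_min (infl_min he1 he2) (infl_min he3 (infl_aa 0)),
      (min_le_left _ _).trans (min_le_left _ _), (min_le_left _ _).trans (min_le_right _ _),
      (min_le_right _ _).trans (min_le_left _ _), (min_le_right _ _).trans (min_le_right _ _)⟩
  obtain ⟨w', -, p', hp', q', hq', -, g2, g3, g4⟩ := h3 y hy3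
  have hle : ∀ {z c x : (MMt τ)}, x ≤ (aat τ) m → Mem (2 * z + c) x → z ≤ (aat τ) m := by
    intro z c x hx h
    exact ((H92.le_two z).trans (le_add_right' _ _)).trans ((mem_lt h).le.trans hx)
  have hle0 : ∀ {z x : (MMt τ)}, x ≤ (aat τ) m → Mem (2 * z) x → z ≤ (aat τ) m := by
    intro z x hx h
    exact (H92.le_two z).trans ((mem_lt h).le.trans hx)
  refine H92.mem_omega.1 (hsound y w' p' q' ⟨g4, ?_, ?_⟩) hy
  · intro u hu
    have hu' : Mem u p' := hu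
    rcases H92.parity u with ⟨z, rfl⟩ | ⟨z, rfl⟩
    · exact H92.mem_jn_even.2 ((h1 y hy1 z).1 ((hSX _ _).1.2 ⟨hy4, p', hp', ⟨g2, by
        rw [add_zero]; exact hu'⟩, hle0 hp' hu'⟩))
    · exact H92.mem_jn_odd.2 ((h2 y hy2 z).1 ((hSY _ _).1.2 ⟨hy4, p', hp', ⟨g2, hu'⟩,
        hle hp' hu'⟩))
  · intro u hu
    have hu' : Mem u q' := hu
    rcases H92.parity u with ⟨z, rfl⟩ | ⟨z, rfl⟩
    · exact fun hc => (h1 y hy1 z).2 ((hSX _ _).2.2 ⟨hy4, q', hq', ⟨g3, by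
        rw [add_zero]; exact hu'⟩, hle0 hq' hu'⟩) (H92.mem_jn_even.1 hc)
    · exact fun hc => (h2 y hy2 z).2 ((hSY _ _).2.2 ⟨hy4, q', hq', ⟨g3, hu'⟩,
        hle hq' hu'⟩) (H92.mem_jn_odd.1 hc)

end Pool.Agent.BSN.H97
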