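import Pool.Agent.Helper26_BSN.Stmts
import Pool.Agent.Helper26_BSN.DerJ

/-!
# Common lemmas for the modules THR and UNB (squad BSN)
-/

namespace Pool.Agent.BSN.H97

open Filter Cardinal Pool.Agent.BSig Pool.Agent.BSN

variable {τ : Tower}

theorem add_le_add2 {a b c d : (MMt τ)} (h1 : a ≤ b) (h2 : c ≤ d) : a + c ≤ b + d := by
  refine (PAExp.add_le_add' a b c h1).trans ?_
  rw [add_comm b c, add_comm b d]
  exact PAExp.add_le_add' c d b h2

theorem mul_le_mul2 {a b c d : (MMt τ)} (h1 : a ≤ b) (h2 : c ≤ d) : a * c ≤ b * d := by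
  refine (PAExp.mul_le_mul' a b c h1).trans ?_
  rw [mul_comm b c, mul_comm b d]
  exact PAExp.mul_le_mul' c d b h2

theorem pr_mono {a b c d : (MMt τ)} (h1 : a ≤ b) (h2 : c ≤ d) : pr a c ≤ pr b d :=
  add_le_add2 (mul_le_mul2 (add_le_add2 h1 h2) (add_le_add2 h1 h2)) h1

theorem lt_add_one2 {a b : (MMt τ)} (h : a ≤ b) : a < b + 1 :=
  (PAExp.discrete _ _).2 (PAExp.add_le_add' _ _ 1 h)

theorem infl_min {x y : (MMt τ)} (hx : Infl x) (hy : Infl y) : Infl (min x y) := fun n =>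
  lt_min (hx n) (hy n)

/-- Comprehension for bounded binary relations. -/
theorem exists_rel (N b : (MMt τ)) {R : (MMt τ) → (MMt τ) → Prop}
    (hR : IsDelta0 (fun v : Fin 2 → (MMt τ) => R (v 0) (v 1))) :
    ∃ S : (MMt τ), ∀ y x, Mem (pr y x) S ↔ y ≤ N ∧ x ≤ b ∧ R y x := by
  have h : Int1 (fun u : (MMt τ) => ∃ y, y ≤ N ∧ ∃ x, x ≤ b ∧ (u = pr y x ∧ R y x)) := by
    refine Int1.of_delta0 ?_
    refine IsDelta0.ex (IsTerm.param N) ?_
    refine IsDelta0.ex (IsTerm.param b) ?_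
    refine (IsDelta0.eq (IsTerm.var 2) (IsTerm.pr (IsTerm.var 1) (IsTerm.var 0))).and ?_
    refine hR.subst (F := ![fun v => v 1, fun v => v 0]) fun i => ?_
    fin_cases i
    · exact IsTerm.var 1
    · exact IsTerm.var 0
  obtain ⟨S, -, hS⟩ := h.code (pr N b + 1)
  refine ⟨S, fun y x => ?_⟩
  rw [hS]
  constructor
  · rintro ⟨-, y', hy', x', hx', e, h⟩
    obtain ⟨rfl, rfl⟩ := pr_inj.1 e
    exact ⟨hy', hx', h⟩
  · rintro ⟨h1, h2, h3⟩
    exact ⟨lt_add_one2 (pr_mono h1 h2), y, h1, x, h2, rfl, h3⟩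

end Pool.Agent.BSN.H97
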